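import Pool.Agent.W901.NU.ClsC

/-!
# The square-root law for exponential time
-/

set_option autoImplicit false

namespace Pool.Agent.W901.Old.MP_71c844_lc

open Pool.Agent.NPC Pool.Agent.W901.AT Pool.Agent.W901.NU
open Pool.Agent.H820R2.SS (InEXPTIME)
open Pool.Agent.H623R2.PS (InPSPACE)

/-- **The square-root law for exponential time.** -/
theorem result (δ ε : ℝ) :
    (0 < δ → δ ≤ 1 / 2 → 0 < ε → List.TFAE
      [∀ L : Set (List Bool), InEXPTIME L → InPSPACE L,
        ∃ A : Set (List Bool), EXPHard A ∧ PredictableIn InPSPACE δ ε A,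
        ∀ A : Set (List Bool), InEXPTIME A → FullyPredictableIn InPSPACE δ A]) ∧
    (0 < δ → 0 < ε → ∀ A : Set (List Bool), EXPHard A → ¬ Predictable δ ε A) ∧
    (δ ≤ 0 → ∀ A : Set (List Bool), FullyPredictable δ A) :=
  ⟨fun h1 h2 h3 => class_exp_law cl_pspace h1 h2 h3,
    fun h1 h2 _ hA => not_predictable_of_exp h1 h2 hA, fun h A => fully_of_nonpos h A⟩

end Pool.Agent.W901.Old.MP_71c844_lc
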