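import Pool.Agent.W901.NU.MainC

/-!
# `P/poly` and the prediction of answers: a square-root law

Polynomial time is Mathlib's `Turing.TM2ComputableInPolyTime`, for functions on bit strings;
`InPpoly` is the class of the languages decided in polynomial time with a polynomially long advice
string that depends only on the length of the input (the usual form of `P/poly`).

A set `A` is `(δ, ε)`-predictable with advice if there are an oracle `X` (an arbitrary set) and a
polynomial-time algorithm with polynomial advice, asking `X` at most `O(log n)` questions, which
computes for every list of `m` questions of length at most `m ^ ε` about membership in `A`
predictions for a nonempty subset of `s` of them (it may abstain on all the others) such that the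
number of right predictions and the number of wrong predictions differ by at least `m ^ δ * √ s`.
It is fully `δ`-predictable with advice if this holds for all lists of questions, of any length, with
predictions for all questions.

The theorem. For `ε > 0` and `0 < δ ≤ 1 / 2` and EVERY set `A`:
`A` is in `P/poly` iff `A` is `(δ, ε)`-predictable with advice iff it is fully `δ`-predictable with
advice. Hence `NP` is contained in `P/poly` iff some `NP`-hard set is `(δ, ε)`-predictable with
advice. For `δ ≤ 0` every set whatsoever is fully `δ`-predictable, even without advice.

Proof. Trying all answers of `X` one gets polynomially many prediction vectors for every list, one
of which is good. Fix a length `n` and consider a distribution on the strings of this length, and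
`m` random strings. The experts are the triples of a prediction vector, a learning rate `r / (8 m)`
and a sign; the weight of an expert is the product of `1 ± r / (8 m)` over the positions at which it
was right or wrong. At position `t` the program knows the `m` strings and the labels of the first
`t - 1` of them, and its (real valued) opinion is the weighted average of the votes of the experts.
For every list the total gain of the opinions is at least the logarithm of the final weight of the
good vector with the best learning rate, minus the logarithm of the number of experts, and this is
positive because of the factor `m ^ δ`: the learning rate adapts to the number `s` of predictions.
By exchangeability some position and some choice of the other strings give an opinion whose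
correlation with membership in `A` is at least `1 / m`. Boosting combines polynomially many of these
into a correct decision for all strings of length `n`. All computations are made with integers.
-/

set_option autoImplicit false

namespace Pool.Agent.W901.Old.MP_79d702_lc

open Pool.Agent.NPC Pool.Agent.W901.AT Pool.Agent.W901.NU

theorem result (δ ε : ℝ) :
    (0 < δ → δ ≤ 1 / 2 → 0 < ε →
      (∀ A : Set (List Bool), List.TFAE [InPpoly A, PredictableA δ ε A, FullyPredictableA δ A]) ∧
      ((∀ L : Set (List Bool), InNP L → InPpoly L) ↔
        ∃ A : Set (List Bool), NPHard A ∧ PredictableA δ ε A)) ∧
    (δ ≤ 0 → ∀ A : Set (List Bool), FullyPredictable δ A) :=
  nonuniform_law δ ε

end Pool.Agent.W901.Old.MP_79d702_lc
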